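import Mathlib
import Pool.Agent.H221R2.FB_VdcGen

set_option autoImplicit false

/-! Exponential sums of reciprocals, from the general van der Corput estimate. -/

namespace Pool.Agent.H426R3.RC

open Finset
open Pool.Agent.H469R2.NK (e norm_e e_add conj_e)

/-- the derivatives of `-J/t` -/
noncomputable def ph (J : ℝ) (m : ℕ) (t : ℝ) : ℝ := (-1) ^ (m + 1) * (m.factorial : ℝ) * J * (t ^ (m + 1))⁻¹

theorem ph_deriv (J : ℝ) (m : ℕ) {t : ℝ} (ht : 0 < t) : HasDerivAt (ph J m) (ph J (m + 1) t) t := by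
  have h1 := ((hasDerivAt_pow (m + 1) t).inv (by positivity)).const_mul ((-1) ^ (m + 1) * (m.factorial : ℝ) * J)
  refine HasDerivAt.congr_deriv (f := ph J m) h1 ?_
  unfold ph
  rw [Nat.factorial_succ]
  push_cast
  field_simp
  ring

theorem ph_bound {J t : ℝ} (hJ : 0 < J) (m : ℕ) (hm : m ≤ 9) (h1 : J ≤ t) (h2 : t ≤ 3 * J) :
    1 / 3 ^ 10 ≤ (-1) ^ (m + 1) * ph J m t * J ^ m ∧ (-1) ^ (m + 1) * ph J m t * J ^ m ≤ (Nat.factorial 9 : ℝ) := by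
  have ht : 0 < t := by linarith
  have e1 : (-1) ^ (m + 1) * ph J m t * J ^ m = (m.factorial : ℝ) * (J / t) ^ (m + 1) := by
    unfold ph
    have : ((-1 : ℝ) ^ (m + 1)) * (-1) ^ (m + 1) = 1 := by rw [← mul_pow]; norm_num
    calc (-1) ^ (m + 1) * ((-1) ^ (m + 1) * (m.factorial : ℝ) * J * (t ^ (m + 1))⁻¹) * J ^ m =
        (((-1 : ℝ) ^ (m + 1)) * (-1) ^ (m + 1)) * ((m.factorial : ℝ) * (J ^ (m + 1) * (t ^ (m + 1))⁻¹)) := by ring
      _ = _ := by rw [this, one_mul, div_pow, div_eq_mul_inv (J ^ (m + 1))]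
  rw [e1]
  have h3 : J / t ≤ 1 := by rw [div_le_one ht]; exact h1
  have h4 : 1 / 3 ≤ J / t := by rw [div_le_div_iff₀ (by norm_num) ht]; linarith
  have h5 : (J / t) ^ (m + 1) ≤ 1 := pow_le_one₀ (by positivity) h3
  have h6 : (1 / 3 : ℝ) ^ (m + 1) ≤ (J / t) ^ (m + 1) := pow_le_pow_left₀ (by norm_num) h4 _
  have h7 : (1 / 3 : ℝ) ^ 10 ≤ (1 / 3 : ℝ) ^ (m + 1) := pow_le_pow_of_le_one (by norm_num) (by norm_num) (by omega)
  have h8 : (1 : ℝ) ≤ m.factorial := by exact_mod_cast Nat.factorial_pos m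
  have h9 : (m.factorial : ℝ) ≤ (Nat.factorial 9 : ℝ) := by exact_mod_cast Nat.factorial_le hm
  have h10 : 0 < (J / t) ^ (m + 1) := by positivity
  constructor
  · calc (1 / 3 ^ 10 : ℝ) = (1 / 3) ^ 10 := by norm_num
      _ ≤ 1 * (J / t) ^ (m + 1) := by rw [one_mul]; exact h7.trans h6
      _ ≤ _ := mul_le_mul_of_nonneg_right h8 h10.le
  · calc (m.factorial : ℝ) * (J / t) ^ (m + 1) ≤ (m.factorial : ℝ) * 1 :=
          mul_le_mul_of_nonneg_left h5 (by linarith)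
      _ ≤ _ := by rw [mul_one]; exact h9

theorem corr : ∃ η : ℝ, 0 < η ∧ η ≤ 1 ∧ ∃ C : ℝ, 0 < C ∧
    ∀ (J L a : ℕ) (ξ : ℝ), 1 ≤ J → J ≤ a → L ≤ J → a + L ≤ 3 * J → 1 ≤ |ξ| → |ξ| ≤ (J : ℝ) ^ 5 →
    ‖∑ n ∈ range L, e (ξ * (J / ((a : ℝ) + n)))‖ ≤ C * ((J : ℝ) ^ (1 - η) + J / |ξ|) := by
  obtain ⟨η, h0, h1, C, hC, h⟩ := Pool.Agent.H221R2.FB.vdc_gen 5 (1 / 3 ^ 10) (Nat.factorial 9 : ℝ) (by positivity)
  refine ⟨η, h0, h1, C, hC, ?_⟩
  intro J L a ξ hJ ha hL haL hx1 hx2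
  have hJ' : (0 : ℝ) < J := by exact_mod_cast hJ
  have h2 := h J L a (-ξ) (ph J) hJ (by exact_mod_cast ha) hL (by exact_mod_cast haL)
    (fun m _ t ht => ph_deriv J m (by linarith [ht.1]))
    (fun m _ hm2 t ht => ph_bound hJ' m (by omega) ht.1 ht.2)
    (by rwa [abs_neg]) (by rwa [abs_neg])
  rw [abs_neg] at h2
  refine le_trans (le_of_eq ?_) h2
  congr 1
  refine Finset.sum_congr rfl fun n _ => ?_
  congr 1
  unfold ph
  simp only [Nat.factorial_zero, Nat.cast_one, zero_add, pow_one]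
  rw [div_eq_mul_inv]
  ring

end Pool.Agent.H426R3.RC
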