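import Mathlib
import Pool.Agent.H426R3.RC.Corr

set_option autoImplicit false

/-! Second moments of the exponential sums along `2^n z`, averaged over reciprocals. -/

namespace Pool.Agent.H426R3.RC

open Finset
open Pool.Agent.H469R2.NK (e norm_e e_add conj_e e_zero)

theorem sq_sum (s : Finset ℕ) (K : ℕ) (f : ℕ → ℕ → ℂ) :
    ∑ j ∈ range K, ‖∑ n ∈ s, f n j‖ ^ 2 ≤
      ∑ n1 ∈ s, ∑ n2 ∈ s, ‖∑ j ∈ range K, f n1 j * (starRingEnd ℂ) (f n2 j)‖ := by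
  have h1 : ((∑ j ∈ range K, ‖∑ n ∈ s, f n j‖ ^ 2 : ℝ) : ℂ) =
      ∑ n1 ∈ s, ∑ n2 ∈ s, ∑ j ∈ range K, f n1 j * (starRingEnd ℂ) (f n2 j) := by
    have h2 : ∀ j, ((‖∑ n ∈ s, f n j‖ ^ 2 : ℝ) : ℂ) = ∑ n1 ∈ s, ∑ n2 ∈ s, f n1 j * (starRingEnd ℂ) (f n2 j) := by
      intro j
      rw [← Complex.normSq_eq_norm_sq, ← Complex.mul_conj, map_sum, Finset.sum_mul_sum]
    rw [Complex.ofReal_sum, Finset.sum_congr rfl fun j _ => h2 j, Finset.sum_comm]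
    exact Finset.sum_congr rfl fun n1 _ => Finset.sum_comm
  have h3 : (0 : ℝ) ≤ ∑ j ∈ range K, ‖∑ n ∈ s, f n j‖ ^ 2 := Finset.sum_nonneg fun _ _ => by positivity
  calc ∑ j ∈ range K, ‖∑ n ∈ s, f n j‖ ^ 2 = ‖((∑ j ∈ range K, ‖∑ n ∈ s, f n j‖ ^ 2 : ℝ) : ℂ)‖ := by
        rw [Complex.norm_real, Real.norm_of_nonneg h3]
    _ = ‖∑ n1 ∈ s, ∑ n2 ∈ s, ∑ j ∈ range K, f n1 j * (starRingEnd ℂ) (f n2 j)‖ := by rw [h1]
    _ ≤ ∑ n1 ∈ s, ‖∑ n2 ∈ s, ∑ j ∈ range K, f n1 j * (starRingEnd ℂ) (f n2 j)‖ := norm_sum_le _ _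
    _ ≤ _ := Finset.sum_le_sum fun n1 _ => norm_sum_le _ _

theorem geo (W N : ℕ) : ∑ n ∈ Ico W N, ((1 : ℝ) / 2) ^ n ≤ 2 * (1 / 2) ^ W := by
  rw [Finset.sum_Ico_eq_sum_range]
  simp only [pow_add]
  rw [← Finset.mul_sum, mul_comm]
  exact mul_le_mul_of_nonneg_right (sum_geometric_two_le _) (by positivity)

/-- the constants of the van der Corput estimate -/
def CC (η C : ℝ) : Prop := ∀ (J L a : ℕ) (ξ : ℝ), 1 ≤ J → J ≤ a → L ≤ J → a + L ≤ 3 * J → 1 ≤ |ξ| → |ξ| ≤ (J : ℝ) ^ 5 →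
    ‖∑ n ∈ range L, e (ξ * (J / ((a : ℝ) + n)))‖ ≤ C * ((J : ℝ) ^ (1 - η) + J / |ξ|)

theorem two_pow_sub {n1 n2 : ℕ} (h : n1 ≠ n2) : (2 : ℝ) ^ n2 ≤ 2 * |(2 : ℝ) ^ n1 - 2 ^ n2| := by
  rcases lt_or_gt_of_ne h with h | h
  · have h1 : (2 : ℝ) ^ (n1 + 1) ≤ 2 ^ n2 := pow_le_pow_right₀ (by norm_num) h
    rw [pow_succ] at h1
    rw [abs_sub_comm, abs_of_nonneg (by nlinarith [pow_pos (show (0 : ℝ) < 2 by norm_num) n1])]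
    linarith
  · have h1 : (2 : ℝ) ^ (n2 + 1) ≤ 2 ^ n1 := pow_le_pow_right₀ (by norm_num) h
    rw [pow_succ] at h1
    have h2 := pow_pos (show (0 : ℝ) < 2 by norm_num) n2
    rw [abs_of_nonneg (by linarith)]
    linarith

theorem two_pow_sub_le {n1 n2 N : ℕ} (h1 : n1 < N) (h2 : n2 < N) : |(2 : ℝ) ^ n1 - 2 ^ n2| ≤ 2 ^ N := by
  have a1 : (2 : ℝ) ^ n1 ≤ 2 ^ N := pow_le_pow_right₀ (by norm_num) h1.le
  have a2 : (2 : ℝ) ^ n2 ≤ 2 ^ N := pow_le_pow_right₀ (by norm_num) h2.le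
  have b1 : (0 : ℝ) < 2 ^ n1 := by positivity
  have b2 : (0 : ℝ) < 2 ^ n2 := by positivity
  rw [abs_le]
  constructor <;> linarith

theorem mom {η C : ℝ} (hC : 0 < C) (hCC : CC η C) {P W K a h N : ℕ} (hh : 1 ≤ h)
    (hK : K * 2 ^ W = 2 * 2 ^ P) (hW : 1 ≤ W) (ha : 2 ^ P ≤ a) (haK : a + K ≤ 2 * 2 ^ P)
    (hN : 2 * (h : ℝ) * 2 ^ N ≤ ((2 ^ P : ℕ) : ℝ) ^ 5) :
    ∑ j ∈ range K, ‖∑ n ∈ Ico W N, e ((h : ℝ) * 2 ^ n * (2 * 2 ^ P / ((a : ℝ) + j)))‖ ^ 2 ≤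
      K * ((1 + C) * (N - W : ℕ) + C * 2 ^ W * ((2 ^ P : ℕ) : ℝ) ^ (-η) * ((N - W : ℕ) : ℝ) ^ 2) := by
  have hh' : (1 : ℝ) ≤ h := by exact_mod_cast hh
  have hKJ : K ≤ 2 ^ P := by
    have h1 : K * 2 ≤ K * 2 ^ W := Nat.mul_le_mul_left _ (by
      calc 2 = 2 ^ 1 := by norm_num
        _ ≤ 2 ^ W := Nat.pow_le_pow_right (by norm_num) hW)
    omega
  have hJ1 : 1 ≤ 2 ^ P := Nat.one_le_two_pow
  have hJr : (0 : ℝ) < ((2 ^ P : ℕ) : ℝ) := by exact_mod_cast hJ1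
  have hKr : (K : ℝ) * 2 ^ W = 2 * ((2 ^ P : ℕ) : ℝ) := by exact_mod_cast hK
  set Jr : ℝ := ((2 ^ P : ℕ) : ℝ) with hJdef
  have hb : ∀ n1 ∈ Ico W N, ∀ n2 ∈ Ico W N,
      ‖∑ j ∈ range K, e ((h : ℝ) * 2 ^ n1 * (2 * 2 ^ P / ((a : ℝ) + j))) *
        (starRingEnd ℂ) (e ((h : ℝ) * 2 ^ n2 * (2 * 2 ^ P / ((a : ℝ) + j))))‖ ≤
        (if n1 = n2 then (K : ℝ) else 0) + C * K * 2 ^ W * (Jr ^ (-η) / 2) + C * K * 2 ^ W / 2 * (1 / 2) ^ n2 := by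
    intro n1 hn1 n2 hn2
    rw [mem_Ico] at hn1 hn2
    have e1 : ∀ j ∈ range K, e ((h : ℝ) * 2 ^ n1 * (2 * 2 ^ P / ((a : ℝ) + j))) *
        (starRingEnd ℂ) (e ((h : ℝ) * 2 ^ n2 * (2 * 2 ^ P / ((a : ℝ) + j)))) =
        e ((2 * h * (2 ^ n1 - 2 ^ n2)) * (Jr / ((a : ℝ) + j))) := by
      intro j _
      rw [conj_e, ← e_add]
      congr 1
      rw [hJdef]
      push_cast
      ring
    rw [Finset.sum_congr rfl e1]
    split_ifs with hn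
    · subst hn
      simp only [sub_self, mul_zero, zero_mul, e_zero, Finset.sum_const, Finset.card_range, nsmul_eq_mul,
        mul_one]
      rw [Complex.norm_natCast]
      have : 0 ≤ C * K * 2 ^ W * (Jr ^ (-η) / 2) + C * K * 2 ^ W / 2 * (1 / 2) ^ n1 := by positivity
      linarith
    · rw [zero_add]
      have hx1 : (2 : ℝ) ^ n2 ≤ |2 * (h : ℝ) * (2 ^ n1 - 2 ^ n2)| := by
        rw [abs_mul, abs_of_nonneg (by positivity : (0 : ℝ) ≤ 2 * h)]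
        have h1 := two_pow_sub hn
        have h2 := abs_nonneg ((2 : ℝ) ^ n1 - 2 ^ n2)
        nlinarith
      have hx0 : (1 : ℝ) ≤ 2 ^ n2 := one_le_pow₀ (by norm_num)
      have hx2 : |2 * (h : ℝ) * (2 ^ n1 - 2 ^ n2)| ≤ Jr ^ 5 := by
        rw [abs_mul, abs_of_nonneg (by positivity : (0 : ℝ) ≤ 2 * h)]
        exact (mul_le_mul_of_nonneg_left (two_pow_sub_le hn1.2 hn2.2) (by positivity)).trans hN
      have h3 := hCC (2 ^ P) K a (2 * (h : ℝ) * (2 ^ n1 - 2 ^ n2)) hJ1 ha hKJ (by omega) (hx0.trans hx1) hx2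
      refine h3.trans ?_
      rw [← hJdef]
      have h4 : Jr / |2 * (h : ℝ) * (2 ^ n1 - 2 ^ n2)| ≤ Jr * (1 / 2) ^ n2 := by
        rw [one_div, inv_pow, ← div_eq_mul_inv]
        exact div_le_div_of_nonneg_left hJr.le (by positivity) hx1
      have h5 : Jr ^ (1 - η) = Jr * Jr ^ (-η) := by
        rw [sub_eq_add_neg, Real.rpow_add hJr, Real.rpow_one]
      have h6 : Jr = K * 2 ^ W / 2 := by linarith
      calc C * (Jr ^ (1 - η) + Jr / |2 * (h : ℝ) * (2 ^ n1 - 2 ^ n2)|) ≤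
          C * (Jr * Jr ^ (-η) + Jr * (1 / 2) ^ n2) := by
            rw [h5]; exact mul_le_mul_of_nonneg_left (by linarith) hC.le
        _ = C * Jr * (Jr ^ (-η)) + C * Jr * (1 / 2) ^ n2 := by ring
        _ = C * (K * 2 ^ W / 2) * (Jr ^ (-η)) + C * (K * 2 ^ W / 2) * (1 / 2) ^ n2 := by rw [← h6]
        _ = _ := by ring
  refine (sq_sum _ _ _).trans ((Finset.sum_le_sum fun n1 hn1 => Finset.sum_le_sum fun n2 hn2 =>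
    hb n1 hn1 n2 hn2).trans ?_)
  have e2 : ∀ n1 ∈ Ico W N, ∑ n2 ∈ Ico W N, ((if n1 = n2 then (K : ℝ) else 0) + C * K * 2 ^ W * (Jr ^ (-η) / 2) +
      C * K * 2 ^ W / 2 * (1 / 2) ^ n2) ≤ K * (1 + C) + (N - W : ℕ) * (C * K * 2 ^ W * (Jr ^ (-η) / 2)) := by
    intro n1 hn1
    rw [Finset.sum_add_distrib, Finset.sum_add_distrib, Finset.sum_ite_eq, if_pos hn1]
    simp only [Finset.sum_const, Nat.card_Ico, nsmul_eq_mul]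
    have h0 : ∑ x ∈ Ico W N, C * K * 2 ^ W / 2 * ((1 : ℝ) / 2) ^ x =
        C * K * 2 ^ W / 2 * ∑ x ∈ Ico W N, ((1 : ℝ) / 2) ^ x := (Finset.mul_sum _ _ _).symm
    rw [h0]
    have h1 : C * K * 2 ^ W / 2 * ∑ n2 ∈ Ico W N, ((1 : ℝ) / 2) ^ n2 ≤ C * K * 2 ^ W / 2 * (2 * (1 / 2) ^ W) :=
      mul_le_mul_of_nonneg_left (geo W N) (by positivity)
    have h2 : C * K * 2 ^ W / 2 * (2 * (1 / 2) ^ W) = C * K := by
      have : (2 : ℝ) ^ W * (1 / 2) ^ W = 1 := by rw [← mul_pow]; norm_num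
      calc C * K * 2 ^ W / 2 * (2 * (1 / 2) ^ W) = C * K * ((2 : ℝ) ^ W * (1 / 2) ^ W) := by ring
        _ = _ := by rw [this, mul_one]
    rw [h2] at h1
    linarith
  refine (Finset.sum_le_sum e2).trans ?_
  simp only [Finset.sum_const, Nat.card_Ico, nsmul_eq_mul]
  have h0 : 0 ≤ C * K * 2 ^ W * Jr ^ (-η) * ((N - W : ℕ) : ℝ) ^ 2 := by positivity
  have e3 : ((N - W : ℕ) : ℝ) * (K * (1 + C) + (N - W : ℕ) * (C * K * 2 ^ W * (Jr ^ (-η) / 2))) =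
      K * ((1 + C) * (N - W : ℕ)) + C * K * 2 ^ W * Jr ^ (-η) * ((N - W : ℕ) : ℝ) ^ 2 / 2 := by ring
  rw [e3]
  have e4 : K * ((1 + C) * (N - W : ℕ) + C * 2 ^ W * Jr ^ (-η) * ((N - W : ℕ) : ℝ) ^ 2) =
      K * ((1 + C) * (N - W : ℕ)) + C * K * 2 ^ W * Jr ^ (-η) * ((N - W : ℕ) : ℝ) ^ 2 := by ring
  rw [e4]
  linarith

end Pool.Agent.H426R3.RC
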