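import Mathlib
import Pool.Agent.H426R3.RC.Mom

set_option autoImplicit false

/-! One step of the construction. -/

namespace Pool.Agent.H426R3.RC

open Finset Filter
open Pool.Agent.H469R2.NK (e norm_e e_add conj_e e_zero)

/-- the exponential sum -/
noncomputable def TT (h W N : ℕ) (z : ℝ) : ℂ := ∑ n ∈ Ico W N, e ((h : ℝ) * 2 ^ n * z)

theorem norm_TT_le (h W N : ℕ) (z : ℝ) : ‖TT h W N z‖ ≤ ((N - W : ℕ) : ℝ) := by
  unfold TT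
  refine (norm_sum_le _ _).trans ?_
  simp [norm_e]

theorem TT_split {h W N : ℕ} (N1 : ℕ) (z : ℝ) (h1 : W ≤ N1) (h2 : N1 ≤ N) :
    TT h W N z = TT h W N1 z + TT h N1 N z := by
  unfold TT
  rw [Finset.sum_Ico_consecutive _ h1 h2]

/-- growth -/
theorem grow {η C : ℝ} (hη : 0 < η) (W k : ℕ) : ∀ᶠ P : ℕ in atTop,
    C * 2 ^ W * ((2 ^ P : ℕ) : ℝ) ^ (-η) * (4 * ((P : ℝ) + 1)) ^ 2 ≤ 1 ∧ (32 * k : ℝ) ≤ 2 ^ P := by
  have hr : |(2 : ℝ) ^ (-η)| < 1 := by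
    rw [abs_of_pos (by positivity)]
    exact Real.rpow_lt_one_of_one_lt_of_neg (by norm_num) (by linarith)
  have hlim := tendsto_pow_const_mul_const_pow_of_abs_lt_one 2 hr
  have h1 := hlim.eventually_lt_const (show (0 : ℝ) < 1 / (64 * (|C| + 1) * 2 ^ W) by positivity)
  have h2 : ∀ᶠ P : ℕ in atTop, (32 * k : ℝ) ≤ 2 ^ P :=
    (tendsto_pow_atTop_atTop_of_one_lt (show (1 : ℝ) < 2 by norm_num)).eventually_ge_atTop _
  filter_upwards [h1, h2, eventually_ge_atTop 1] with P a1 a2 a3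
  refine ⟨?_, a2⟩
  have hP : (1 : ℝ) ≤ P := by exact_mod_cast a3
  have e1 : ((2 ^ P : ℕ) : ℝ) ^ (-η) = ((2 : ℝ) ^ (-η)) ^ P := by
    push_cast
    rw [← Real.rpow_natCast, ← Real.rpow_natCast, ← Real.rpow_mul (by norm_num), ← Real.rpow_mul (by norm_num),
      mul_comm]
  rw [e1]
  set ρ : ℝ := ((2 : ℝ) ^ (-η)) ^ P with hρ
  have hρ0 : 0 < ρ := by positivity
  rw [lt_div_iff₀ (by positivity)] at a1
  have h3 : (4 * ((P : ℝ) + 1)) ^ 2 ≤ 64 * (P : ℝ) ^ 2 := by nlinarith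
  have h4 : C ≤ |C| + 1 := by have := le_abs_self C; linarith
  have h5 : C * (2 ^ W * ρ * (4 * ((P : ℝ) + 1)) ^ 2) ≤ (|C| + 1) * (2 ^ W * ρ * (4 * ((P : ℝ) + 1)) ^ 2) :=
    mul_le_mul_of_nonneg_right h4 (by positivity)
  have h6 : (|C| + 1) * (2 ^ W * ρ * (4 * ((P : ℝ) + 1)) ^ 2) ≤ (|C| + 1) * (2 ^ W * ρ * (64 * (P : ℝ) ^ 2)) :=
    mul_le_mul_of_nonneg_left (mul_le_mul_of_nonneg_left h3 (by positivity)) (by positivity)
  calc C * 2 ^ W * ρ * (4 * ((P : ℝ) + 1)) ^ 2 = C * (2 ^ W * ρ * (4 * ((P : ℝ) + 1)) ^ 2) := by ring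
    _ ≤ (|C| + 1) * (2 ^ W * ρ * (64 * (P : ℝ) ^ 2)) := h5.trans h6
    _ = (P : ℝ) ^ 2 * ρ * (64 * (|C| + 1) * 2 ^ W) := by ring
    _ ≤ 1 := a1.le

theorem inv_sq_sum {m n : ℕ} (hm : 1 ≤ m) : ∑ i ∈ Ioc m n, ((i : ℝ) ^ 2)⁻¹ ≤ (m : ℝ)⁻¹ := by
  rcases le_or_gt m n with h | h
  · have := sum_Ioc_inv_sq_le_sub (α := ℝ) (by omega : m ≠ 0) h
    have h2 : (0 : ℝ) ≤ (n : ℝ)⁻¹ := by positivity
    linarith
  · rw [Ioc_eq_empty (by omega), sum_empty]; positivity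

theorem step {η C : ℝ} (hη : 0 < η) (hC : 0 < C) (hCC : CC η C) (k : ℕ) (hk : 1 ≤ k) :
    ∃ thr : ℕ, ∀ A M : ℕ, 1 ≤ M → 2 ^ (M - 1) ≤ A → A + 1 ≤ 2 ^ M → thr ≤ 4 * M → ∀ B : ℕ,
      ∃ P j : ℕ, B ≤ P ∧ 4 * M ≤ P + 1 ∧ j < 2 ^ (P + 1 - 4 * M) ∧ ∀ h, 1 ≤ h → h ≤ k →
        ∀ N, 4 * M ≤ N → N ≤ 4 * (P + 1) →
          ‖TT h (4 * M) N (2 * 2 ^ P / (((A * 2 ^ (P + 1 - M) : ℕ) : ℝ) + j))‖ ≤ N / k := by
  have hkr : (1 : ℝ) ≤ k := by exact_mod_cast hk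
  obtain ⟨q, hq⟩ := exists_nat_ge (4 * (k : ℝ) ^ 3 * (C + 2) + 4 * k)
  refine ⟨q * q, ?_⟩
  intro A M hM hA1 hA2 hthr B
  set W := 4 * M with hW
  set m := Nat.sqrt W with hm
  have hqm : q ≤ m := Nat.le_sqrt.mpr hthr
  have hqmr : (q : ℝ) ≤ m := by exact_mod_cast hqm
  have hkp : (0 : ℝ) < 4 * (k : ℝ) ^ 3 * (C + 2) := by positivity
  have hm1 : 4 * (k : ℝ) ^ 3 * (C + 2) ≤ m := by linarith
  have hm2 : 4 * (k : ℝ) ≤ m := by linarith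
  have hm0 : 1 ≤ m := by
    have : (1 : ℝ) ≤ m := by linarith
    exact_mod_cast this
  have hmr0 : (0 : ℝ) < m := by exact_mod_cast hm0
  obtain ⟨P0, hP0⟩ := eventually_atTop.mp (grow (C := C) hη W k)
  set P := P0 + B + W with hP
  obtain ⟨g1, g2⟩ := hP0 P (by omega)
  have hWP : W ≤ P + 1 := by omega
  set K := 2 ^ (P + 1 - W) with hK
  have hKW : K * 2 ^ W = 2 * 2 ^ P := by
    rw [hK, ← pow_add, Nat.sub_add_cancel hWP, pow_succ, mul_comm]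
  set a := A * 2 ^ (P + 1 - M) with ha
  have hMP : M ≤ P + 1 := by omega
  have ha1 : 2 ^ P ≤ a := by
    calc 2 ^ P = 2 ^ (M - 1) * 2 ^ (P + 1 - M) := by rw [← pow_add]; congr 1; omega
      _ ≤ _ := Nat.mul_le_mul_right _ hA1
  have ha2 : a + K ≤ 2 * 2 ^ P := by
    have h1 : (A + 1) * 2 ^ (P + 1 - M) ≤ 2 ^ M * 2 ^ (P + 1 - M) := Nat.mul_le_mul_right _ hA2
    have h2 : 2 ^ M * 2 ^ (P + 1 - M) = 2 * 2 ^ P := by
      rw [← pow_add, Nat.add_sub_cancel' hMP, pow_succ, mul_comm]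
    have h3 : K ≤ 2 ^ (P + 1 - M) := Nat.pow_le_pow_right (by norm_num) (by omega)
    rw [h2, add_mul, one_mul] at h1
    omega
  have hKpos : 0 < K := by positivity
  have hKr : (0 : ℝ) < K := by exact_mod_cast hKpos
  set I1 := Nat.sqrt (4 * (P + 1)) with hI1
  set z : ℕ → ℝ := fun j => 2 * 2 ^ P / ((a : ℝ) + j) with hz
  -- the moments
  have hmom : ∀ h ∈ Icc 1 k, ∀ i ∈ Ioc m I1, ∑ j ∈ range K, ‖TT h W (i ^ 2) (z j)‖ ^ 2 ≤
      K * ((C + 2) * (i : ℝ) ^ 2) := by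
    intro h hh i hi
    rw [mem_Icc] at hh
    rw [mem_Ioc] at hi
    have hi2 : i ^ 2 ≤ 4 * (P + 1) := by
      have := Nat.sqrt_le' (4 * (P + 1))
      calc i ^ 2 ≤ I1 ^ 2 := Nat.pow_le_pow_left hi.2 2
        _ ≤ _ := this
    have hi1 : (1 : ℝ) ≤ i := by exact_mod_cast (by omega : 1 ≤ i)
    have hcond : 2 * (h : ℝ) * 2 ^ (i ^ 2) ≤ ((2 ^ P : ℕ) : ℝ) ^ 5 := by
      have h1 : (h : ℝ) ≤ k := by exact_mod_cast hh.2
      have h2 : (2 : ℝ) ^ (i ^ 2) ≤ 2 ^ (4 * (P + 1)) := pow_le_pow_right₀ (by norm_num) hi2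
      have h3 : (2 : ℝ) ^ (4 * (P + 1)) = 16 * (2 ^ P) ^ 4 := by
        rw [← pow_mul, show 4 * (P + 1) = 4 + P * 4 by ring, pow_add]; norm_num
      calc 2 * (h : ℝ) * 2 ^ (i ^ 2) ≤ 2 * k * (16 * (2 ^ P) ^ 4) := by
            rw [← h3]
            exact mul_le_mul (by linarith) h2 (by positivity) (by positivity)
        _ = (32 * k) * (2 ^ P) ^ 4 := by ring
        _ ≤ 2 ^ P * (2 ^ P) ^ 4 := mul_le_mul_of_nonneg_right g2 (by positivity)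
        _ = _ := by push_cast; ring
    have h1 := mom hC hCC (P := P) (W := W) (K := K) (a := a) (h := h) (N := i ^ 2) hh.1 hKW (by omega) ha1 ha2 hcond
    refine h1.trans (mul_le_mul_of_nonneg_left ?_ hKr.le)
    have h2 : (((i ^ 2 - W : ℕ)) : ℝ) ≤ (i : ℝ) ^ 2 := by
      have : i ^ 2 - W ≤ i ^ 2 := Nat.sub_le _ _
      exact_mod_cast this
    have h3 : (((i ^ 2 - W : ℕ)) : ℝ) ≤ 4 * ((P : ℝ) + 1) := by
      have : i ^ 2 - W ≤ 4 * (P + 1) := (Nat.sub_le _ _).trans hi2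
      exact_mod_cast this
    have h0 : (0 : ℝ) ≤ ((i ^ 2 - W : ℕ) : ℝ) := Nat.cast_nonneg _
    have h4 : C * 2 ^ W * ((2 ^ P : ℕ) : ℝ) ^ (-η) * (((i ^ 2 - W : ℕ)) : ℝ) ^ 2 ≤ 1 := by
      refine le_trans (mul_le_mul_of_nonneg_left (pow_le_pow_left₀ h0 h3 2) (by positivity)) g1
    have h5 : (1 + C) * (((i ^ 2 - W : ℕ)) : ℝ) ≤ (1 + C) * (i : ℝ) ^ 2 :=
      mul_le_mul_of_nonneg_left h2 (by linarith)
    have h6 : (1 : ℝ) ≤ (i : ℝ) ^ 2 := one_le_pow₀ hi1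
    linarith
  -- choose `j`
  set F : ℕ → ℝ := fun j => ∑ h ∈ Icc 1 k, ∑ i ∈ Ioc m I1, ‖TT h W (i ^ 2) (z j)‖ ^ 2 * ((i : ℝ) ^ 4)⁻¹ with hF
  have hsum : ∑ j ∈ range K, F j ≤ ∑ j ∈ range K, (k * (C + 2) / m) := by
    have h1 : ∑ j ∈ range K, F j = ∑ h ∈ Icc 1 k, ∑ i ∈ Ioc m I1, (∑ j ∈ range K, ‖TT h W (i ^ 2) (z j)‖ ^ 2) *
        ((i : ℝ) ^ 4)⁻¹ := by
      rw [hF, Finset.sum_comm]
      refine Finset.sum_congr rfl fun h _ => ?_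
      rw [Finset.sum_comm]
      exact Finset.sum_congr rfl fun i _ => by rw [Finset.sum_mul]
    rw [h1]
    have h2 : ∀ h ∈ Icc 1 k, ∑ i ∈ Ioc m I1, (∑ j ∈ range K, ‖TT h W (i ^ 2) (z j)‖ ^ 2) * ((i : ℝ) ^ 4)⁻¹ ≤
        K * (C + 2) * (m : ℝ)⁻¹ := by
      intro h hh
      calc ∑ i ∈ Ioc m I1, (∑ j ∈ range K, ‖TT h W (i ^ 2) (z j)‖ ^ 2) * ((i : ℝ) ^ 4)⁻¹ ≤
          ∑ i ∈ Ioc m I1, K * (C + 2) * ((i : ℝ) ^ 2)⁻¹ := by
            refine Finset.sum_le_sum fun i hi => ?_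
            have h3 := mul_le_mul_of_nonneg_right (hmom h hh i hi) (show 0 ≤ ((i : ℝ) ^ 4)⁻¹ by positivity)
            refine h3.trans (le_of_eq ?_)
            rw [mem_Ioc] at hi
            have hi0 : (i : ℝ) ≠ 0 := by
              have : 0 < i := by omega
              positivity
            field_simp
        _ = K * (C + 2) * ∑ i ∈ Ioc m I1, ((i : ℝ) ^ 2)⁻¹ := (Finset.mul_sum _ _ _).symm
        _ ≤ _ := mul_le_mul_of_nonneg_left (inv_sq_sum hm0) (by positivity)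
    refine (Finset.sum_le_sum h2).trans (le_of_eq ?_)
    simp only [Finset.sum_const, Nat.card_Icc, Nat.add_sub_cancel, Finset.card_range, nsmul_eq_mul]
    rw [div_eq_mul_inv]
    ring
  obtain ⟨j, hj, hFj⟩ := Finset.exists_le_of_sum_le (Finset.nonempty_range_iff.mpr hKpos.ne') hsum
  rw [mem_range] at hj
  refine ⟨P, j, by omega, hWP, hj, ?_⟩
  intro h hh1 hh2 N hN1 hN2
  have hTi : ∀ i ∈ Ioc m I1, ‖TT h W (i ^ 2) (z j)‖ ≤ (i : ℝ) ^ 2 / (2 * k) := by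
    intro i hi
    have h1 : ‖TT h W (i ^ 2) (z j)‖ ^ 2 * ((i : ℝ) ^ 4)⁻¹ ≤ F j := by
      have a1 : ‖TT h W (i ^ 2) (z j)‖ ^ 2 * ((i : ℝ) ^ 4)⁻¹ ≤
          ∑ i ∈ Ioc m I1, ‖TT h W (i ^ 2) (z j)‖ ^ 2 * ((i : ℝ) ^ 4)⁻¹ :=
        Finset.single_le_sum (f := fun i : ℕ => ‖TT h W (i ^ 2) (z j)‖ ^ 2 * ((i : ℝ) ^ 4)⁻¹)
          (fun i _ => by positivity) hi
      have a2 : ∑ i ∈ Ioc m I1, ‖TT h W (i ^ 2) (z j)‖ ^ 2 * ((i : ℝ) ^ 4)⁻¹ ≤ F j :=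
        Finset.single_le_sum (f := fun h : ℕ => ∑ i ∈ Ioc m I1, ‖TT h W (i ^ 2) (z j)‖ ^ 2 * ((i : ℝ) ^ 4)⁻¹)
          (fun h _ => Finset.sum_nonneg fun i _ => by positivity) (mem_Icc.mpr ⟨hh1, hh2⟩)
      exact a1.trans a2
    rw [mem_Ioc] at hi
    have hi0 : (0 : ℝ) < i := by exact_mod_cast (by omega : 0 < i)
    have h2 : (k : ℝ) * (C + 2) / m ≤ 1 / (4 * (k : ℝ) ^ 2) := by
      rw [div_le_div_iff₀ hmr0 (by positivity)]
      linarith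
    have h3 : ‖TT h W (i ^ 2) (z j)‖ ^ 2 ≤ ((i : ℝ) ^ 2 / (2 * k)) ^ 2 := by
      have h4 := h1.trans (hFj.trans h2)
      rw [← div_eq_mul_inv, div_le_iff₀ (by positivity)] at h4
      refine h4.trans (le_of_eq ?_)
      field_simp
      ring
    exact le_of_sq_le_sq h3 (by positivity)
  -- general `N`
  set i := Nat.sqrt N with hi
  have hi1 : i ^ 2 ≤ N := Nat.sqrt_le' N
  have hi2 : N < (i + 1) ^ 2 := Nat.lt_succ_sqrt' N
  have hNi : N - i ^ 2 ≤ 2 * i := by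
    have : (i + 1) ^ 2 = i ^ 2 + 2 * i + 1 := by ring
    omega
  have him : m ≤ i := Nat.sqrt_le_sqrt hN1
  have himr : (m : ℝ) ≤ i := by exact_mod_cast him
  have hir : (0 : ℝ) < i := by linarith
  have hNr : (i : ℝ) ^ 2 ≤ N := by exact_mod_cast hi1
  have h2i : 2 * (i : ℝ) ≤ N / (2 * k) := by
    rw [le_div_iff₀ (by positivity)]
    have : 4 * (k : ℝ) * i ≤ i * i := mul_le_mul_of_nonneg_right (hm2.trans himr) hir.le
    nlinarith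
  have hfin : ‖TT h W N (z j)‖ ≤ N / k := by
    rcases Nat.lt_or_ge m i with h3 | h3
    · have hiI : i ≤ I1 := Nat.sqrt_le_sqrt hN2
      have hWi : W ≤ i ^ 2 := by
        have h4 : W < (m + 1) ^ 2 := Nat.lt_succ_sqrt' W
        have h5 : (m + 1) ^ 2 ≤ i ^ 2 := Nat.pow_le_pow_left h3 2
        omega
      rw [TT_split (i ^ 2) (z j) hWi hi1]
      have h6 := hTi i (mem_Ioc.mpr ⟨h3, hiI⟩)
      have h7 := norm_TT_le h (i ^ 2) N (z j)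
      have h8 : ((N - i ^ 2 : ℕ) : ℝ) ≤ 2 * i := by exact_mod_cast hNi
      have h9 : (i : ℝ) ^ 2 / (2 * k) ≤ N / (2 * k) := div_le_div_of_nonneg_right hNr (by positivity)
      have h10 : (N : ℝ) / k = N / (2 * k) + N / (2 * k) := by field_simp; ring
      rw [h10]
      exact (norm_add_le _ _).trans (by linarith)
    · have him2 : i = m := le_antisymm h3 him
      have hWm : m ^ 2 ≤ W := Nat.sqrt_le' W
      have h7 := norm_TT_le h W N (z j)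
      have h8 : ((N - W : ℕ) : ℝ) ≤ 2 * i := by
        have : N - W ≤ 2 * i := by
          rw [him2] at hNi ⊢
          omega
        exact_mod_cast this
      have h10 : (N : ℝ) / k = N / (2 * k) + N / (2 * k) := by field_simp; ring
      have h11 : (0 : ℝ) ≤ (N : ℝ) / (2 * k) := by positivity
      rw [h10]
      linarith
  exact hfin

end Pool.Agent.H426R3.RC
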