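import Mathlib
import Pool.Agent.H426R3.RC.Step
import Pool.Agent.H84R3.WeylCrit

set_option autoImplicit false

/-! The limit of the construction. -/

namespace Pool.Agent.H426R3.RC

open Finset Filter Topology
open Pool.Agent.H469R2.NK (e norm_e e_add conj_e e_zero)
open Pool.Agent.H84R3 (ex norm_ex_sub_le)

theorem e_eq (x : ℝ) : e x = ex x := by unfold e ex; rw [mul_comm]

/-- the properties of the sequence of dyadic approximations -/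
structure Sq (A M : ℕ → ℕ) : Prop where
  m1 : ∀ k, 1 ≤ M k
  a1 : ∀ k, 2 ^ (M k - 1) ≤ A k
  a2 : ∀ k, A k + 1 ≤ 2 ^ M k
  m2 : ∀ k, M k < M (k + 1)
  m3 : ∀ k, 4 * M k ≤ M (k + 1)
  m4 : ∀ k, (k + 1) * (4 * M k) ≤ 4 * M (k + 1)
  nx : ∀ k, ∃ j, A (k + 1) = A k * 2 ^ (M (k + 1) - M k) + j ∧ j < 2 ^ (M (k + 1) - 4 * M k)
  ex : ∀ k h, 1 ≤ h → h ≤ k + 1 → ∀ N, 4 * M k ≤ N → N ≤ 4 * M (k + 1) →
    ‖TT h (4 * M k) N ((2 : ℝ) ^ M (k + 1) / A (k + 1))‖ ≤ (N : ℝ) / ((k : ℝ) + 1)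

theorem exists_Sq : ∃ A M : ℕ → ℕ, Sq A M := by
  obtain ⟨η, hη, -, C, hC, hCC⟩ := corr
  have h := fun k => step hη hC hCC (k + 1) (by omega)
  choose thr hthr using h
  let Good : ℕ → ℕ × ℕ → Prop := fun k s => 1 ≤ s.2 ∧ 2 ^ (s.2 - 1) ≤ s.1 ∧ s.1 + 1 ≤ 2 ^ s.2 ∧ thr k ≤ 4 * s.2
  let R : ℕ → ℕ × ℕ → ℕ × ℕ → Prop := fun k s t => s.2 < t.2 ∧ 4 * s.2 ≤ t.2 ∧ (k + 1) * (4 * s.2) ≤ 4 * t.2 ∧
    (∃ j, t.1 = s.1 * 2 ^ (t.2 - s.2) + j ∧ j < 2 ^ (t.2 - 4 * s.2)) ∧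
    ∀ h, 1 ≤ h → h ≤ k + 1 → ∀ N, 4 * s.2 ≤ N → N ≤ 4 * t.2 →
      ‖TT h (4 * s.2) N ((2 : ℝ) ^ t.2 / t.1)‖ ≤ (N : ℝ) / ((k : ℝ) + 1)
  have H : ∀ k s, Good k s → ∃ t, Good (k + 1) t ∧ R k s t := by
    intro k s hs
    obtain ⟨g1, g2, g3, g4⟩ := hs
    obtain ⟨P, j, p1, p2, p3, p4⟩ := hthr k s.1 s.2 g1 g2 g3 g4 (thr (k + 1) + (k + 1) * (4 * s.2) + s.2)
    have hMP : s.2 ≤ P + 1 := by omega
    refine ⟨(s.1 * 2 ^ (P + 1 - s.2) + j, P + 1), ⟨by simp, ?_, ?_, ?_⟩, ?_, ?_, ?_, ⟨j, rfl, p3⟩, ?_⟩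
    · show 2 ^ (P + 1 - 1) ≤ s.1 * 2 ^ (P + 1 - s.2) + j
      calc 2 ^ (P + 1 - 1) = 2 ^ (s.2 - 1) * 2 ^ (P + 1 - s.2) := by rw [← pow_add]; congr 1; omega
        _ ≤ s.1 * 2 ^ (P + 1 - s.2) := Nat.mul_le_mul_right _ g2
        _ ≤ _ := Nat.le_add_right _ _
    · show s.1 * 2 ^ (P + 1 - s.2) + j + 1 ≤ 2 ^ (P + 1)
      have h1 : (s.1 + 1) * 2 ^ (P + 1 - s.2) ≤ 2 ^ s.2 * 2 ^ (P + 1 - s.2) := Nat.mul_le_mul_right _ g3
      rw [← pow_add, Nat.add_sub_cancel' hMP, add_mul, one_mul] at h1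
      have h3 : 2 ^ (P + 1 - 4 * s.2) ≤ 2 ^ (P + 1 - s.2) := Nat.pow_le_pow_right (by norm_num) (by omega)
      omega
    · show thr (k + 1) ≤ 4 * (P + 1)
      omega
    · show s.2 < P + 1
      omega
    · show 4 * s.2 ≤ P + 1
      omega
    · show (k + 1) * (4 * s.2) ≤ 4 * (P + 1)
      omega
    · intro h h1 h2 N hN1 hN2
      have h3 := p4 h h1 h2 N hN1 hN2
      have e1 : (2 : ℝ) ^ (P + 1) / ((s.1 * 2 ^ (P + 1 - s.2) + j : ℕ) : ℝ) =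
          2 * 2 ^ P / (((s.1 * 2 ^ (P + 1 - s.2) : ℕ) : ℝ) + j) := by
        rw [Nat.cast_add, pow_succ, mul_comm]
      show ‖TT h (4 * s.2) N ((2 : ℝ) ^ (P + 1) / ((s.1 * 2 ^ (P + 1 - s.2) + j : ℕ) : ℝ))‖ ≤ _
      rw [e1]
      push_cast at h3 ⊢
      exact h3
  choose! nxt hn1 hn2 using H
  have h0 : Good 0 (2 ^ (thr 0), thr 0 + 1) := by
    refine ⟨by simp, by simp, ?_, ?_⟩
    · show 2 ^ thr 0 + 1 ≤ 2 ^ (thr 0 + 1)
      rw [pow_succ]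
      have : 1 ≤ 2 ^ thr 0 := Nat.one_le_two_pow
      omega
    · show thr 0 ≤ 4 * (thr 0 + 1)
      omega
  let f : ℕ → ℕ × ℕ := fun k => Nat.rec (2 ^ (thr 0), thr 0 + 1) (fun k s => nxt k s) k
  have hf : ∀ k, Good k (f k) := by
    intro k
    induction k with
    | zero => exact h0
    | succ k ih => exact hn1 k (f k) ih
  have hR : ∀ k, R k (f k) (f (k + 1)) := fun k => hn2 k (f k) (hf k)
  refine ⟨fun k => (f k).1, fun k => (f k).2, ⟨fun k => (hf k).1, fun k => (hf k).2.1, fun k => (hf k).2.2.1,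
    fun k => (hR k).1, fun k => (hR k).2.1, fun k => (hR k).2.2.1, fun k => (hR k).2.2.2.1,
    fun k => (hR k).2.2.2.2⟩⟩

variable {A M : ℕ → ℕ}

noncomputable def yy (A M : ℕ → ℕ) (k : ℕ) : ℝ := (A k : ℝ) / 2 ^ M k

noncomputable def uu (A M : ℕ → ℕ) (k : ℕ) : ℝ := yy A M k + (1 / 2) ^ (4 * M k)

theorem yy_step (h : Sq A M) (k : ℕ) : yy A M k ≤ yy A M (k + 1) ∧
    yy A M (k + 1) + (1 / 2) ^ (M (k + 1)) ≤ uu A M k := by
  obtain ⟨j, hj1, hj2⟩ := h.nx k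
  have h1 := h.m2 k
  have h3 := h.m3 k
  have e1 : yy A M (k + 1) = yy A M k + j / 2 ^ M (k + 1) := by
    unfold yy
    rw [hj1]
    push_cast
    rw [add_div]
    congr 1
    have : (2 : ℝ) ^ M (k + 1) = 2 ^ (M (k + 1) - M k) * 2 ^ M k := by
      rw [← pow_add, Nat.sub_add_cancel h1.le]
    rw [this]
    field_simp
  refine ⟨by rw [e1]; linarith [show (0 : ℝ) ≤ j / 2 ^ M (k + 1) by positivity], ?_⟩
  rw [e1]
  unfold uu
  have h4 : ((j : ℝ) + 1) ≤ 2 ^ (M (k + 1) - 4 * M k) := by exact_mod_cast hj2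
  have h5 : ((j : ℝ) + 1) / 2 ^ M (k + 1) ≤ (1 / 2) ^ (4 * M k) := by
    rw [div_le_iff₀ (by positivity)]
    refine h4.trans (le_of_eq ?_)
    have : (2 : ℝ) ^ M (k + 1) = 2 ^ (4 * M k) * 2 ^ (M (k + 1) - 4 * M k) := by
      rw [← pow_add, Nat.add_sub_cancel' h3]
    rw [this, ← mul_assoc, ← mul_pow]
    norm_num
  have h6 : ((j : ℝ) + 1) / 2 ^ M (k + 1) = j / 2 ^ M (k + 1) + (1 / 2) ^ M (k + 1) := by
    rw [add_div, one_div, one_div, inv_pow]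
  linarith

theorem uu_anti (h : Sq A M) (k : ℕ) : uu A M (k + 1) < uu A M k := by
  have h1 := (yy_step h k).2
  have h2 : ((1 : ℝ) / 2) ^ (4 * M (k + 1)) < (1 / 2) ^ (M (k + 1)) :=
    pow_lt_pow_right_of_lt_one₀ (by norm_num) (by norm_num) (by have := h.m1 (k + 1); omega)
  unfold uu at h1 ⊢
  linarith

theorem yy_mono (h : Sq A M) : Monotone (yy A M) := monotone_nat_of_le_succ fun k => (yy_step h k).1

theorem uu_strict (h : Sq A M) : StrictAnti (uu A M) := strictAnti_nat_of_succ_lt fun k => uu_anti h k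

theorem yy_lt_uu (h : Sq A M) (k l : ℕ) : yy A M l ≤ uu A M k := by
  have h1 := yy_mono h (le_max_right k l)
  have h2 := (uu_strict h).antitone (le_max_left k l)
  have h3 : yy A M (max k l) ≤ uu A M (max k l) := by unfold uu; have : (0 : ℝ) ≤ (1 / 2) ^ (4 * M (max k l)) := by positivity
                                                      linarith
  linarith

/-- the limit -/
noncomputable def yl (A M : ℕ → ℕ) : ℝ := ⨆ k, yy A M k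

theorem bdd (h : Sq A M) : BddAbove (Set.range (yy A M)) := ⟨uu A M 0, by rintro _ ⟨l, rfl⟩; exact yy_lt_uu h 0 l⟩

theorem yy_le_yl (h : Sq A M) (k : ℕ) : yy A M k ≤ yl A M := le_ciSup (bdd h) k

theorem yl_lt (h : Sq A M) (k : ℕ) : yl A M < uu A M k :=
  lt_of_le_of_lt (ciSup_le fun l => yy_lt_uu h (k + 1) l) (uu_anti h k)

theorem half_le (h : Sq A M) (k : ℕ) : 1 / 2 ≤ yy A M k := by
  unfold yy
  rw [div_le_div_iff₀ (by norm_num) (by positivity)]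
  have h1 := h.a1 k
  have h2 : 2 ^ M k ≤ A k * 2 := by
    have : 2 ^ M k = 2 ^ (M k - 1) * 2 := by rw [← pow_succ, Nat.sub_add_cancel (h.m1 k)]
    omega
  rw [one_mul]
  exact_mod_cast h2

theorem near (h : Sq A M) (k : ℕ) : |(yl A M)⁻¹ - (2 : ℝ) ^ M k / A k| ≤ 4 * (1 / 2) ^ (4 * M k) := by
  have h1 := half_le h k
  have h2 := yy_le_yl h k
  have h3 := yl_lt h k
  have h0 : (0 : ℝ) < yy A M k := by linarith
  have h0' : (0 : ℝ) < yl A M := by linarith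
  have e1 : (2 : ℝ) ^ M k / A k = (yy A M k)⁻¹ := by unfold yy; rw [inv_div]
  have h4 : yl A M - yy A M k ≤ (1 / 2) ^ (4 * M k) := by unfold uu at h3; linarith
  rw [e1, abs_sub_comm, abs_of_nonneg (by rw [sub_nonneg]; exact inv_anti₀ h0 h2),
    inv_sub_inv h0.ne' h0'.ne', div_le_iff₀ (by positivity)]
  have h5 : 1 / 4 ≤ yy A M k * yl A M := by nlinarith
  have h6 : (0 : ℝ) < (1 / 2) ^ (4 * M k) := by positivity
  nlinarith

theorem TT_near (hh : ℕ) (W N : ℕ) (x z : ℝ) : ‖TT hh W N x‖ ≤ ‖TT hh W N z‖ + 8 * hh * 2 ^ N * |x - z| := by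
  have h1 : ‖TT hh W N x - TT hh W N z‖ ≤ 8 * hh * 2 ^ N * |x - z| := by
    unfold TT
    rw [← Finset.sum_sub_distrib]
    have h2 : ∀ n ∈ Ico W N, ‖e ((hh : ℝ) * 2 ^ n * x) - e ((hh : ℝ) * 2 ^ n * z)‖ ≤ 8 * hh * |x - z| * 2 ^ n := by
      intro n _
      rw [e_eq, e_eq]
      refine (norm_ex_sub_le _ _).trans ?_
      rw [← mul_sub, abs_mul, abs_of_nonneg (by positivity : (0 : ℝ) ≤ (hh : ℝ) * 2 ^ n)]
      have hpi : 2 * Real.pi ≤ 8 := by have := Real.pi_lt_four; linarith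
      have h3 : 0 ≤ (hh : ℝ) * 2 ^ n * |x - z| := by positivity
      calc 2 * Real.pi * ((hh : ℝ) * 2 ^ n * |x - z|) ≤ 8 * ((hh : ℝ) * 2 ^ n * |x - z|) :=
            mul_le_mul_of_nonneg_right hpi h3
        _ = _ := by ring
    refine (norm_sum_le _ _).trans ((Finset.sum_le_sum h2).trans ?_)
    rw [← Finset.mul_sum]
    have h4 : ∑ n ∈ Ico W N, (2 : ℝ) ^ n ≤ 2 ^ N := by
      calc ∑ n ∈ Ico W N, (2 : ℝ) ^ n ≤ ∑ n ∈ range N, (2 : ℝ) ^ n :=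
            Finset.sum_le_sum_of_subset_of_nonneg (by
              intro n hn; rw [mem_Ico] at hn; exact mem_range.mpr hn.2) fun n _ _ => by positivity
        _ = 2 ^ N - 1 := by
            rw [geom_sum_eq (by norm_num)]; norm_num
        _ ≤ 2 ^ N := by linarith
    have h5 : 0 ≤ 8 * (hh : ℝ) * |x - z| := by positivity
    calc 8 * (hh : ℝ) * |x - z| * ∑ n ∈ Ico W N, (2 : ℝ) ^ n ≤ 8 * (hh : ℝ) * |x - z| * 2 ^ N :=
          mul_le_mul_of_nonneg_left h4 h5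
      _ = _ := by ring
  have h2 := norm_sub_norm_le (TT hh W N x) (TT hh W N z)
  linarith

theorem piece (h : Sq A M) {k hh N : ℕ} (h1 : 1 ≤ hh) (h2 : hh ≤ k + 1) (hN1 : 4 * M k ≤ N)
    (hN2 : N ≤ 4 * M (k + 1)) :
    ‖TT hh (4 * M k) N (yl A M)⁻¹‖ ≤ (N : ℝ) / ((k : ℝ) + 1) + 32 * hh := by
  have h3 := TT_near hh (4 * M k) N (yl A M)⁻¹ ((2 : ℝ) ^ M (k + 1) / A (k + 1))
  have h4 := h.ex k hh h1 h2 N hN1 hN2
  have h5 := near h (k + 1)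
  have h6 : (2 : ℝ) ^ N * (1 / 2) ^ (4 * M (k + 1)) ≤ 1 := by
    have h7 : (2 : ℝ) ^ N ≤ 2 ^ (4 * M (k + 1)) := pow_le_pow_right₀ (by norm_num) hN2
    calc (2 : ℝ) ^ N * (1 / 2) ^ (4 * M (k + 1)) ≤ 2 ^ (4 * M (k + 1)) * (1 / 2) ^ (4 * M (k + 1)) :=
          mul_le_mul_of_nonneg_right h7 (by positivity)
      _ = 1 := by rw [← mul_pow]; norm_num
  have h8 : 8 * (hh : ℝ) * 2 ^ N * |(yl A M)⁻¹ - (2 : ℝ) ^ M (k + 1) / A (k + 1)| ≤ 32 * hh := by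
    calc 8 * (hh : ℝ) * 2 ^ N * |(yl A M)⁻¹ - (2 : ℝ) ^ M (k + 1) / A (k + 1)| ≤
        8 * (hh : ℝ) * 2 ^ N * (4 * (1 / 2) ^ (4 * M (k + 1))) := mul_le_mul_of_nonneg_left h5 (by positivity)
      _ = 32 * hh * ((2 : ℝ) ^ N * (1 / 2) ^ (4 * M (k + 1))) := by ring
      _ ≤ 32 * hh * 1 := mul_le_mul_of_nonneg_left h6 (by positivity)
      _ = _ := by ring
  linarith

theorem full (h : Sq A M) {k hh N : ℕ} (h1 : 1 ≤ hh) (h2 : hh ≤ k + 1) (hN1 : 4 * M (k + 1) ≤ N)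
    (hN2 : N ≤ 4 * M (k + 2)) :
    ‖TT hh 0 N (yl A M)⁻¹‖ ≤ 3 * N / ((k : ℝ) + 1) + 64 * hh := by
  have hk0 : (0 : ℝ) < (k : ℝ) + 1 := by positivity
  have h3 := piece h (k := k + 1) h1 (by omega) hN1 hN2
  have h4 := piece h (k := k) (N := 4 * M (k + 1)) h1 h2 (by have := h.m2 k; omega) le_rfl
  rw [TT_split (4 * M (k + 1)) _ (Nat.zero_le _) hN1, TT_split (4 * M k) _ (Nat.zero_le _)
    (by have := h.m2 k; omega : 4 * M k ≤ 4 * M (k + 1))]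
  have h5 := norm_TT_le hh 0 (4 * M k) (yl A M)⁻¹
  have h6 : (((4 * M k - 0 : ℕ)) : ℝ) ≤ ((4 * M (k + 1) : ℕ) : ℝ) / ((k : ℝ) + 1) := by
    rw [le_div_iff₀ hk0, Nat.sub_zero]
    have := h.m4 k
    have h7 : (((k + 1) * (4 * M k) : ℕ) : ℝ) ≤ ((4 * M (k + 1) : ℕ) : ℝ) := by exact_mod_cast this
    push_cast at h7 ⊢
    linarith
  have h8 : ((4 * M (k + 1) : ℕ) : ℝ) / ((k : ℝ) + 1) ≤ N / ((k : ℝ) + 1) :=
    div_le_div_of_nonneg_right (by exact_mod_cast hN1) hk0.le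
  have h9 : (N : ℝ) / (((k + 1 : ℕ) : ℝ) + 1) ≤ N / ((k : ℝ) + 1) := by
    apply div_le_div_of_nonneg_left (Nat.cast_nonneg _) hk0
    push_cast; linarith
  have h10 : 3 * (N : ℝ) / ((k : ℝ) + 1) = N / ((k : ℝ) + 1) + N / ((k : ℝ) + 1) + N / ((k : ℝ) + 1) := by ring
  rw [h10]
  have h11 := norm_add_le (TT hh 0 (4 * M k) (yl A M)⁻¹ + TT hh (4 * M k) (4 * M (k + 1)) (yl A M)⁻¹)
    (TT hh (4 * M (k + 1)) N (yl A M)⁻¹)
  have h12 := norm_add_le (TT hh 0 (4 * M k) (yl A M)⁻¹) (TT hh (4 * M k) (4 * M (k + 1)) (yl A M)⁻¹)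
  linarith

theorem M_ge (h : Sq A M) (k : ℕ) : k + 1 ≤ M k := by
  induction k with
  | zero => exact h.m1 0
  | succ k ih => have := h.m2 k; omega

theorem tend (h : Sq A M) {hh : ℕ} (h1 : 1 ≤ hh) :
    Tendsto (fun N : ℕ => TT hh 0 N (yl A M)⁻¹ / N) atTop (𝓝 0) := by
  rw [Metric.tendsto_atTop]
  intro ε hε
  obtain ⟨k1, hk1⟩ := exists_nat_gt (6 / ε)
  obtain ⟨n1, hn1⟩ := exists_nat_gt (128 * (hh : ℝ) / ε)
  set k0 := k1 + hh with hk0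
  refine ⟨4 * M (k0 + 1) + n1, ?_⟩
  intro N hN
  -- find the index
  have hex : ∃ l, N < 4 * M l := ⟨N, by have := M_ge h N; omega⟩
  classical
  set l := Nat.find hex with hl
  have hl1 : N < 4 * M l := Nat.find_spec hex
  have hmono : StrictMono M := strictMono_nat_of_lt_succ h.m2
  have hl2 : k0 + 1 < l := by
    by_contra hcon
    have : M l ≤ M (k0 + 1) := hmono.monotone (by omega)
    omega
  obtain ⟨k, hk⟩ : ∃ k, l = k + 2 := ⟨l - 2, by omega⟩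
  have hl3 : 4 * M (k + 1) ≤ N := by
    have := Nat.find_min hex (m := k + 1) (by omega)
    omega
  rw [hk] at hl1
  have hfull := full h (k := k) (hh := hh) (N := N) h1 (by omega) hl3 hl1.le
  have hNn : n1 ≤ N := by omega
  have hN0 : (0 : ℝ) < N := by
    have : 0 < N := by have := M_ge h (k0 + 1); omega
    exact_mod_cast this
  rw [dist_zero_right, norm_div, Complex.norm_natCast, div_lt_iff₀ hN0]
  have hkk : (k1 : ℝ) ≤ k := by exact_mod_cast (by omega : k1 ≤ k)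
  have a1 : 3 * (N : ℝ) / ((k : ℝ) + 1) ≤ ε / 2 * N := by
    rw [div_le_iff₀ (by positivity)]
    rw [div_lt_iff₀ hε] at hk1
    have h6 : 6 ≤ ((k : ℝ) + 1) * ε := by nlinarith
    nlinarith
  have a2 : 64 * (hh : ℝ) < ε / 2 * N := by
    rw [div_lt_iff₀ hε] at hn1
    have : (n1 : ℝ) ≤ N := by exact_mod_cast hNn
    nlinarith
  linarith

end Pool.Agent.H426R3.RC
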