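import Mathlib
import Pool.Agent.H426R3.RC.Lim

set_option autoImplicit false

/-! `1/y` is normal in base 2 and `y` is not. -/

namespace Pool.Agent.H426R3.RC

open Finset Filter Topology
open Pool.Agent.H469R2.NK (e norm_e e_add conj_e e_zero)
open Pool.Agent.H84R3 (ex norm_ex_sub_le)

variable {A M : ℕ → ℕ}

theorem ud_x (h : Sq A M) : Pool.Agent.H84R3.UD (fun n : ℕ => (2 : ℝ) ^ n * (yl A M)⁻¹) := by
  apply Pool.Agent.H84R3.ud_of_weyl
  intro k hk
  refine (tend h hk).congr fun N => ?_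
  unfold Pool.Agent.H84R3.A TT
  rw [Nat.Ico_zero_eq_range]
  congr 1
  refine Finset.sum_congr rfl fun n _ => ?_
  rw [e_eq, mul_assoc]

theorem floor_iff (n k : ℕ) (x : ℝ) (m : ℤ) (h0 : 0 ≤ m) (h1 : m < 2 ^ k) :
    ⌊(2 : ℝ) ^ (n + k) * x⌋ % 2 ^ k = m ↔
      (m : ℝ) / 2 ^ k ≤ Int.fract ((2 : ℝ) ^ n * x) ∧ Int.fract ((2 : ℝ) ^ n * x) < ((m : ℝ) + 1) / 2 ^ k := by
  set t := (2 : ℝ) ^ n * x with ht
  have hp : (0 : ℝ) < 2 ^ k := by positivity
  have e1 : (2 : ℝ) ^ (n + k) * x = ((2 ^ k * ⌊t⌋ : ℤ) : ℝ) + 2 ^ k * Int.fract t := by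
    have h2 := Int.floor_add_fract t
    calc (2 : ℝ) ^ (n + k) * x = 2 ^ k * t := by rw [ht, pow_add]; ring
      _ = 2 ^ k * (⌊t⌋ + Int.fract t) := by rw [h2]
      _ = _ := by push_cast; ring
  rw [e1, Int.floor_intCast_add, Int.mul_add_emod_self_left]
  have hf0 : 0 ≤ ⌊(2 : ℝ) ^ k * Int.fract t⌋ := Int.floor_nonneg.mpr (mul_nonneg hp.le (Int.fract_nonneg t))
  have hf1 : ⌊(2 : ℝ) ^ k * Int.fract t⌋ < 2 ^ k := by
    rw [Int.floor_lt]
    push_cast
    calc (2 : ℝ) ^ k * Int.fract t < 2 ^ k * 1 := mul_lt_mul_of_pos_left (Int.fract_lt_one t) hp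
      _ = _ := mul_one _
  rw [Int.emod_eq_of_lt hf0 hf1, Int.floor_eq_iff, div_le_iff₀ hp, lt_div_iff₀ hp, mul_comm (Int.fract t)]

theorem normal_x (h : Sq A M) (k : ℕ) (m : ℤ) (h0 : 0 ≤ m) (h1 : m < 2 ^ k) :
    Tendsto (fun N : ℕ =>
      (((Finset.range N).filter
          (fun n : ℕ => ⌊(2 : ℝ) ^ (n + k) * (yl A M)⁻¹⌋ % 2 ^ k = m)).card : ℝ) / (N : ℝ))
      atTop (𝓝 (1 / (2 : ℝ) ^ k)) := by
  have hp : (0 : ℝ) < 2 ^ k := by positivity
  have hm0 : (0 : ℝ) ≤ m := by exact_mod_cast h0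
  have hm1 : (m : ℝ) + 1 ≤ 2 ^ k := by exact_mod_cast h1
  have h2 := ud_x h (m / 2 ^ k) (((m : ℝ) + 1) / 2 ^ k) (by positivity)
    (div_le_div_of_nonneg_right (by linarith) hp.le) (by rw [div_le_one hp]; exact hm1)
  have e1 : ((m : ℝ) + 1) / 2 ^ k - m / 2 ^ k = 1 / 2 ^ k := by rw [← sub_div]; congr 1; ring
  rw [e1] at h2
  refine h2.congr fun N => ?_
  congr 2
  exact congrArg Finset.card (Finset.filter_congr fun n _ => (floor_iff n k _ m h0 h1).symm)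

theorem floor_y (h : Sq A M) {k n : ℕ} (h1 : M k ≤ n) (h2 : n < 4 * M k) :
    ⌊(2 : ℝ) ^ (n + 1) * yl A M⌋ % 2 = 0 := by
  have e1 : (2 : ℝ) ^ (n + 1) * yy A M k = ((2 * (2 ^ (n - M k) * A k) : ℤ) : ℝ) := by
    unfold yy
    have : (2 : ℝ) ^ (n + 1) = 2 * 2 ^ (n - M k) * 2 ^ M k := by
      rw [mul_assoc, ← pow_add, Nat.sub_add_cancel h1, pow_succ, mul_comm]
    rw [this]
    push_cast
    field_simp
  have h3 : ⌊(2 : ℝ) ^ (n + 1) * yl A M⌋ = 2 * (2 ^ (n - M k) * A k) := by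
    rw [Int.floor_eq_iff, ← e1]
    have hp : (0 : ℝ) < 2 ^ (n + 1) := by positivity
    refine ⟨mul_le_mul_of_nonneg_left (yy_le_yl h k) hp.le, ?_⟩
    have h4 := mul_lt_mul_of_pos_left (yl_lt h k) hp
    refine lt_of_lt_of_le h4 ?_
    unfold uu
    rw [mul_add]
    have h5 : (2 : ℝ) ^ (n + 1) * (1 / 2) ^ (4 * M k) ≤ 1 := by
      have h7 : (2 : ℝ) ^ (n + 1) ≤ 2 ^ (4 * M k) := pow_le_pow_right₀ (by norm_num) h2
      calc (2 : ℝ) ^ (n + 1) * (1 / 2) ^ (4 * M k) ≤ 2 ^ (4 * M k) * (1 / 2) ^ (4 * M k) :=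
            mul_le_mul_of_nonneg_right h7 (by positivity)
        _ = 1 := by rw [← mul_pow]; norm_num
    linarith
  rw [h3]
  exact Int.mul_emod_right _ _

theorem not_normal_y (h : Sq A M) : ¬ Tendsto (fun N : ℕ =>
      (((Finset.range N).filter
          (fun n : ℕ => ⌊(2 : ℝ) ^ (n + 1) * yl A M⌋ % 2 ^ 1 = 1)).card : ℝ) / (N : ℝ))
      atTop (𝓝 (1 / (2 : ℝ) ^ 1)) := by
  intro hT
  have hsub : Tendsto (fun k => 4 * M k) atTop atTop := by
    apply tendsto_atTop_mono (f := fun k : ℕ => k) _ tendsto_id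
    intro k; have := M_ge h k; omega
  have h1 := hT.comp hsub
  have h2 : ∀ k, ((fun N : ℕ =>
      (((Finset.range N).filter
          (fun n : ℕ => ⌊(2 : ℝ) ^ (n + 1) * yl A M⌋ % 2 ^ 1 = 1)).card : ℝ) / (N : ℝ)) ∘ fun k => 4 * M k) k ≤ 1 / 4 := by
    intro k
    have hM := M_ge h k
    have hM0 : (0 : ℝ) < M k := by exact_mod_cast (by omega : 0 < M k)
    simp only [Function.comp]
    have h3 : ((Finset.range (4 * M k)).filter
          (fun n : ℕ => ⌊(2 : ℝ) ^ (n + 1) * yl A M⌋ % 2 ^ 1 = 1)).card ≤ M k := by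
      calc _ ≤ (Finset.range (M k)).card := by
            apply Finset.card_le_card
            intro n hn
            rw [mem_filter, mem_range] at hn
            rw [mem_range]
            by_contra hcon
            have h4 := floor_y h (k := k) (n := n) (by omega) hn.1
            have h5 := hn.2
            rw [pow_one, h4] at h5
            omega
        _ = M k := card_range _
    have h4 : (((Finset.range (4 * M k)).filter
          (fun n : ℕ => ⌊(2 : ℝ) ^ (n + 1) * yl A M⌋ % 2 ^ 1 = 1)).card : ℝ) ≤ M k := by exact_mod_cast h3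
    have h5 : ((4 * M k : ℕ) : ℝ) = 4 * M k := by push_cast; rfl
    rw [h5, div_le_div_iff₀ (by linarith) (by norm_num)]
    linarith
  have h3 := le_of_tendsto' h1 h2
  norm_num at h3

end Pool.Agent.H426R3.RC
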